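import Pool.Agent.R470.Keller.Tz
import Pool.Agent.H922R2.L9

/-!
# Composites of a trapezoidal pair with polynomial maps of constant Jacobian

If the bracket of a trapezoidal pair `(F, G)` is a nonzero constant, then no composite
`L ∘ (F, G) ∘ H` with polynomial maps `L`, `H` of nonzero constant Jacobian is an automorphism.
-/

set_option autoImplicit false

open MvPolynomial Pool.Agent.H938R2.JC Pool.Agent.W443.J6

namespace Pool.Agent.L5helper65.TZ

/-- Polynomials in two variables with complex coefficients. -/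
abbrev P2 : Type := MvPolynomial (Fin 2) ℂ

/-- The field of rational functions in two variables. -/
abbrev K2 : Type := FractionRing P2

/-- A polynomial as a rational function. -/
noncomputable abbrev toK (p : P2) : K2 := algebraMap P2 K2 p

/-- The polynomial map `p ∘ q` of the plane (first `q`, then `p`). -/
noncomputable def comp (p q : Fin 2 → P2) : Fin 2 → P2 := fun i => aeval q (p i)

/-- The Jacobian determinant of the polynomial map `p` is a nonzero constant. -/
def Keller (p : Fin 2 → P2) : Prop :=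
  ∃ c : ℂ, c ≠ 0 ∧ pderiv 0 (p 0) * pderiv 1 (p 1) - pderiv 1 (p 0) * pderiv 0 (p 1) = C c

theorem aeval_comp (p q : Fin 2 → P2) (f : P2) : aeval (comp p q) f = aeval q (aeval p f) := by
  have h1 : (aeval (comp p q) : P2 →ₐ[ℂ] P2) = (aeval q : P2 →ₐ[ℂ] P2).comp (aeval p) := by
    apply MvPolynomial.algHom_ext
    intro j
    rw [AlgHom.comp_apply, aeval_X, aeval_X]
    rfl
  exact congrArg (fun g => g f) h1

theorem Keller.unit {p : Fin 2 → P2} (h : Keller p) :
    IsUnit (Matrix.of fun i j => pderiv j (p i)).det := by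
  obtain ⟨c, hc, h⟩ := h
  exact Pool.Agent.R470.Keller.det_unit p hc h

theorem unit_comp {p q : Fin 2 → P2} (hp : IsUnit (Matrix.of fun i j => pderiv j (p i)).det)
    (hq : IsUnit (Matrix.of fun i j => pderiv j (q i)).det) :
    IsUnit (Matrix.of fun i j => pderiv j (comp p q i)).det := by
  have h1 : (Matrix.of fun i j => pderiv j (comp p q i)) =
      (aeval q : P2 →ₐ[ℂ] P2).toRingHom.mapMatrix (Matrix.of fun i j => pderiv j (p i)) *
      (Matrix.of fun i j => pderiv j (q i)) := by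
    ext i j
    rw [Matrix.of_apply, Matrix.mul_apply, comp, Pool.Agent.H922R2.deriv_aeval]
    rfl
  rw [h1, Matrix.det_mul, ← RingHom.map_det]
  exact (hp.map _).mul hq

theorem keller_of_unit {p : Fin 2 → P2} (h : IsUnit (Matrix.of fun i j => pderiv j (p i)).det) :
    Keller p := by
  obtain ⟨hr, h'⟩ := MvPolynomial.isUnit_iff_totalDegree_of_isReduced.1 h
  refine ⟨_, hr.ne_zero, ?_⟩
  rw [← MvPolynomial.totalDegree_eq_zero_iff_eq_C.1 h', Matrix.det_fin_two]
  simp only [Matrix.of_apply]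

theorem exists_of_good {f g : P2} (h : Good f g) : ∃ Q : Fin 2 → P2, ∀ j, aeval ![f, g] (Q j) = X j := by
  unfold Good at h
  have hr : ({f, g} : Set P2) = Set.range ![f, g] := by
    ext x
    simp only [Set.mem_range, Fin.exists_fin_two, Set.mem_insert_iff, Set.mem_singleton_iff,
      Matrix.cons_val_zero, Matrix.cons_val_one]
    rw [eq_comm (a := f), eq_comm (a := g)]
  rw [hr, Algebra.adjoin_range_eq_range_aeval] at h
  have h1 : ∀ j : Fin 2, ∃ Q : P2, aeval ![f, g] Q = X j := by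
    intro j
    have : (X j : P2) ∈ (aeval ![f, g] : P2 →ₐ[ℂ] P2).range := by rw [h]; exact Algebra.mem_top
    exact this
  choose Q hQ using h1
  exact ⟨Q, hQ⟩

/-- if `L ∘ T ∘ H` is an automorphism, so is `T` -/
theorem good_of_comp {L T H : Fin 2 → P2} (hH : Keller H)
    (hg : Good (comp L (comp T H) 0) (comp L (comp T H) 1)) : Good (T 0) (T 1) := by
  obtain ⟨Q, hQ⟩ := exists_of_good hg
  have hW : ![comp L (comp T H) 0, comp L (comp T H) 1] = comp L (comp T H) := by
    funext i; fin_cases i <;> rfl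
  rw [hW] at hQ
  set V : Fin 2 → P2 := fun j => aeval L (Q j) with hV
  set U : Fin 2 → P2 := fun j => aeval T (V j) with hU
  have hHU : ∀ j, aeval H (U j) = X j := by
    intro j
    rw [hU, hV]
    change aeval H (aeval T (aeval L (Q j))) = X j
    rw [← aeval_comp, ← aeval_comp]
    exact hQ j
  have hJ : IsUnit (Matrix.det (Pool.Agent.H922R2.jac H)) := hH.unit
  have htop : Pool.Agent.H922R2.SS H = ⊤ := by
    rw [eq_top_iff, ← MvPolynomial.adjoin_range_X, Algebra.adjoin_le_iff]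
    rintro _ ⟨j, rfl⟩
    exact ⟨U j, hHU j⟩
  obtain ⟨G', h1, h2⟩ := Pool.Agent.H922R2.inverse_of_top H hJ htop
  have hGU : G' = U := by
    funext j
    have hid : ∀ p : P2, aeval G' (aeval H p) = p := by
      intro p
      rw [← aeval_comp]
      have : comp H G' = X := by
        funext i
        exact h2 i
      rw [this, aeval_X_left_apply]
    rw [← hid (G' j), h1, ← hHU, hid]
  have h3 : ∀ j, aeval U (H j) = X j := fun j => by rw [← hGU]; exact h2 j
  refine Pool.Agent.R470.Keller.good_of_inv ⟨fun j => aeval V (H j), fun j => ?_⟩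
  have hT : ![T 0, T 1] = T := by funext i; fin_cases i <;> rfl
  rw [hT, ← aeval_comp]
  exact h3 j

theorem bad_of_keller {p q : P2} {c : ℂ} (hc : c ≠ 0)
    (hJ : pderiv 0 p * pderiv 1 q - pderiv 1 p * pderiv 0 q = C c) (hng : ¬ Good p q) :
    Bad p q ∧ Bad q p := by
  refine ⟨⟨⟨c, hc, hJ⟩, hng⟩, ⟨⟨-c, neg_ne_zero.2 hc, ?_⟩, fun h => hng h.symm⟩⟩
  unfold J
  rw [C_neg, ← hJ]
  ring

/-- the composites with a trapezoidal pair of nonzero bracket are not automorphisms -/
theorem bad_comp (a b m n : ℕ) (hm : 0 < m) (hn : 0 < n) (ham : a ∣ m) (han : a ∣ n)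
    (hab : Nat.gcd a b = 1) (ha : 2 ≤ a) (hb : 2 ≤ b)
    (F G : MvPolynomial (Fin 2) ℂ)
    (h1 : convexHull ℝ (insert ((0:ℝ), (0:ℝ))
        ((fun d : Fin 2 →₀ ℕ => ((d 0 : ℝ), (d 1 : ℝ))) '' (↑F.support : Set (Fin 2 →₀ ℕ))))
        = {p : ℝ × ℝ | 0 ≤ p.2 ∧ p.2 ≤ (n : ℝ) ∧ 0 ≤ p.1 ∧ p.1 ≤ (m : ℝ) + (n : ℝ) - p.2})
    (h4 : convexHull ℝ (insert ((0:ℝ), (0:ℝ))
        ((fun d : Fin 2 →₀ ℕ => ((d 0 : ℝ), (d 1 : ℝ))) '' (↑G.support : Set (Fin 2 →₀ ℕ))))
        = {p : ℝ × ℝ | 0 ≤ p.2 ∧ p.2 ≤ ((b * n / a : ℕ) : ℝ) ∧ 0 ≤ p.1 ∧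
            p.1 ≤ ((b * m / a : ℕ) : ℝ) + ((b * n / a : ℕ) : ℝ) - p.2})
    {c : ℂ} (hc0 : c ≠ 0)
    (hc : pderiv 0 F * pderiv 1 G - pderiv 1 F * pderiv 0 G = C c)
    (L H : Fin 2 → P2) (hL : Keller L) (hH : Keller H) :
    Keller (comp L (comp ![F, G] H)) ∧
    Bad (comp L (comp ![F, G] H) 0) (comp L (comp ![F, G] H) 1) ∧
    Bad (comp L (comp ![F, G] H) 1) (comp L (comp ![F, G] H) 0) := by
  have hT : IsUnit (Matrix.of fun i j => pderiv j ((![F, G] : Fin 2 → P2) i)).det :=
    Pool.Agent.R470.Keller.det_unit ![F, G] hc0 (by simpa using hc)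
  have hK : Keller (comp L (comp ![F, G] H)) :=
    keller_of_unit (unit_comp hL.unit (unit_comp hT hH.unit))
  have hng : ¬ Good (comp L (comp ![F, G] H) 0) (comp L (comp ![F, G] H) 1) := by
    intro hg
    have hg' : Good ((![F, G] : Fin 2 → P2) 0) ((![F, G] : Fin 2 → P2) 1) :=
      good_of_comp (L := L) (T := ![F, G]) hH hg
    exact Pool.Agent.R470.Keller.tz_not_good a b m n hm hn ham han hab ha hb F G h1 h4 hc0 hc hg'
  obtain ⟨c', hc', hJ⟩ := id hK
  exact ⟨hK, bad_of_keller hc' hJ hng⟩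

end Pool.Agent.L5helper65.TZ
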